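import Mathlib
import Pool.Agent.V1190.Nag.Spiral

set_option autoImplicit false

open MeasureTheory Set Metric Filter
open scoped ENNReal NNReal ContDiff Topology

/-!
For every `n ≥ 3` there are a quasiconformal map between domains of `ℝⁿ` and a set of Nagata
dimension at most `n - 1` whose image has Nagata dimension `n`.
-/

namespace Pool.Agent.Results.MP_a3803f_an.SpiralRoll

open Pool.Agent.V1190.Nag

/-- a domain: a nonempty connected open set -/
def IsDom {n : ℕ} (Ω : Set (Eu n)) : Prop := IsOpen Ω ∧ IsConnected Ω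

/-- `f` is a quasiconformal homeomorphism of the domain `Ω` onto the domain `Ω'`: a homeomorphism
`Ω → Ω'` which lies in `W^{1,n}_loc(Ω; ℝⁿ)` and satisfies `|Df|ⁿ ≤ K J_f` a.e. in `Ω` for some
`K ≥ 1`. -/
def IsQuasiconformal {n : ℕ} (Ω Ω' : Set (Eu n)) (f : Eu n → Eu n) : Prop :=
  (∃ e : OpenPartialHomeomorph (Eu n) (Eu n), e.source = Ω ∧ e.target = Ω' ∧ EqOn f e Ω) ∧
    BoundedDistortion Ω f

variable {m : ℕ}

/-- the half slab -/
def Om (m : ℕ) : Set (Eu (m + 2)) := {x | 1 / 2 < x 0 ∧ |x 1| < 1 / 2}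

/-- the middle of the half slab -/
def Eset (m : ℕ) : Set (Eu (m + 2)) := {x | 1 / 2 < x 0 ∧ x 1 = 0}

lemma isOpen_Om : IsOpen (Om m) := by
  have h0 : Continuous (fun x : Eu (m + 2) => x 0) := by fun_prop
  have h1 : Continuous (fun x : Eu (m + 2) => |x 1|) := by fun_prop
  exact (isOpen_lt continuous_const h0).inter (isOpen_lt h1 continuous_const)

lemma convex_Om : Convex ℝ (Om m) := by
  intro x hx y hy a b ha hb hab
  refine ⟨?_, ?_⟩
  · simp only [PiLp.add_apply, PiLp.smul_apply, smul_eq_mul]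
    rcases eq_or_lt_of_le ha with h | h
    · have : b = 1 := by linarith
      rw [← h, this]; simpa using hy.1
    · nlinarith [hx.1, hy.1]
  · simp only [PiLp.add_apply, PiLp.smul_apply, smul_eq_mul]
    have h1 := abs_lt.1 hx.2
    have h2 := abs_lt.1 hy.2
    rw [abs_lt]
    rcases eq_or_lt_of_le ha with h | h
    · have : b = 1 := by linarith
      rw [← h, this]; simpa using h2
    · constructor <;> nlinarith [h1.1, h1.2, h2.1, h2.2]

lemma mem_Om_of_Eset {x : Eu (m + 2)} (hx : x ∈ Eset m) : x ∈ Om m :=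
  ⟨hx.1, by rw [hx.2]; norm_num⟩

lemma nonempty_Eset : (Eset m).Nonempty := by
  refine ⟨WithLp.toLp 2 (fun i => if i = 0 then 1 else 0), ?_, ?_⟩
  · norm_num
  · simp

lemma det_pos {x : Eu (m + 2)} (hx : x ∈ Om m) : 1 / 2 ≤ (DG x).det := by
  rw [det_DG]
  have h1 := one_le_th (x 0)
  have h2 := abs_lt.1 hx.2
  rw [le_div_iff₀ (by linarith)]
  linarith [h2.2]

lemma injOn_G : InjOn (G : Eu (m + 2) → Eu (m + 2)) (Om m) := by
  intro x hx y hy hxy
  have h0 : (th (x 0) - x 1) * Real.cos (th (x 0)) = (th (y 0) - y 1) * Real.cos (th (y 0)) := by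
    have := congrArg (fun v : Eu (m + 2) => v 0) hxy
    simpa [G] using this
  have h1 : (th (x 0) - x 1) * Real.sin (th (x 0)) = (th (y 0) - y 1) * Real.sin (th (y 0)) := by
    have := congrArg (fun v : Eu (m + 2) => v 1) hxy
    simpa [G] using this
  have hx1 := abs_lt.1 hx.2
  have hy1 := abs_lt.1 hy.2
  have tx := one_le_th (x 0)
  have ty := one_le_th (y 0)
  have rx : 0 < th (x 0) - x 1 := by linarith [hx1.2]
  have ry : 0 < th (y 0) - y 1 := by linarith [hy1.2]
  have hr : th (x 0) - x 1 = th (y 0) - y 1 := by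
    have e1 := Real.sin_sq_add_cos_sq (th (x 0))
    have e2 := Real.sin_sq_add_cos_sq (th (y 0))
    have e3 : (th (x 0) - x 1) ^ 2 = (th (y 0) - y 1) ^ 2 := by
      calc (th (x 0) - x 1) ^ 2 = ((th (x 0) - x 1) * Real.cos (th (x 0))) ^ 2 +
            ((th (x 0) - x 1) * Real.sin (th (x 0))) ^ 2 := by
            linear_combination (-(th (x 0) - x 1) ^ 2) * e1
        _ = ((th (y 0) - y 1) * Real.cos (th (y 0))) ^ 2 +
            ((th (y 0) - y 1) * Real.sin (th (y 0))) ^ 2 := by rw [h0, h1]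
        _ = (th (y 0) - y 1) ^ 2 := by
            linear_combination ((th (y 0) - y 1) ^ 2) * e2
    exact (pow_left_inj₀ rx.le ry.le (by norm_num)).1 e3
  rw [hr] at h0 h1
  have hc := mul_left_cancel₀ ry.ne' h0
  have hs := mul_left_cancel₀ ry.ne' h1
  have hcos : Real.cos (th (x 0) - th (y 0)) = 1 := by
    rw [Real.cos_sub, hc, hs]
    have := Real.sin_sq_add_cos_sq (th (y 0))
    linear_combination this
  obtain ⟨k, hk⟩ := (Real.cos_eq_one_iff _).1 hcos
  have hpi := Real.pi_gt_three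
  have hk0 : k = 0 := by
    have h3 : |(k : ℝ) * (2 * Real.pi)| < 1 := by
      rw [hk, abs_lt]
      constructor <;> linarith [hx1.1, hx1.2, hy1.1, hy1.2]
    rw [abs_mul, abs_of_pos (by positivity : 0 < 2 * Real.pi)] at h3
    have h4 : |(k : ℝ)| < 1 := by nlinarith [abs_nonneg (k : ℝ)]
    rw [← Int.cast_abs] at h4
    have h5 : |k| < 1 := by exact_mod_cast h4
    exact Int.abs_lt_one_iff.1 h5
  rw [hk0] at hk
  have hth : th (x 0) = th (y 0) := by
    simp at hk; linarith
  have hx0 : x 0 = y 0 := by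
    have e1 := th_sq hx.1.le
    have e2 := th_sq hy.1.le
    rw [hth] at e1
    linarith
  have hx1' : x 1 = y 1 := by linarith
  ext i
  by_cases hi0 : i = 0
  · rw [hi0]; exact hx0
  · by_cases hi1 : i = 1
    · rw [hi1]; exact hx1'
    · have := congrArg (fun v : Eu (m + 2) => v i) hxy
      simpa [G, hi0, hi1] using this

lemma map_nhds_G {x : Eu (m + 2)} (hx : x ∈ Om m) : map G (𝓝 x) = 𝓝 (G x) := by
  have hdet : (DG x).det ≠ 0 := by
    have := det_pos hx
    intro h; rw [h] at this; norm_num at this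
  have h1 : HasStrictFDerivAt G
      ((DG x).toContinuousLinearEquivOfDetNeZero hdet : Eu (m + 2) →L[ℝ] Eu (m + 2)) x := by
    have : ((DG x).toContinuousLinearEquivOfDetNeZero hdet : Eu (m + 2) →L[ℝ] Eu (m + 2)) = DG x := by
      ext v; simp
    rw [this]
    exact hasStrictFDerivAt_G hx.1
  exact h1.map_nhds_eq_of_equiv

lemma isOpenMap_G : IsOpenMap ((Om m).domRestrict (G : Eu (m + 2) → Eu (m + 2))) := by
  rw [isOpenMap_iff_nhds_le]
  rintro ⟨x, hx⟩
  have h1 : map ((Om m).domRestrict (G : Eu (m + 2) → Eu (m + 2))) (𝓝 ⟨x, hx⟩) =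
      map G (map Subtype.val (𝓝 (⟨x, hx⟩ : Om m))) := by
    rw [map_map]; rfl
  rw [h1, map_nhds_subtype_coe_eq_nhds hx (isOpen_Om.mem_nhds hx), map_nhds_G hx]
  rfl

/-- the roll as a homeomorphism of the half slab onto its image -/
noncomputable def eG (m : ℕ) : OpenPartialHomeomorph (Eu (m + 2)) (Eu (m + 2)) :=
  OpenPartialHomeomorph.ofContinuousOpenRestrict (injOn_G.toPartialEquiv G (Om m))
    (locallyLipschitz_G.continuous.continuousOn) isOpenMap_G isOpen_Om

theorem result : ∀ n : ℕ, 3 ≤ n → ∃ (Ω Ω' : Set (Eu n)) (f : Eu n → Eu n) (E : Set (Eu n)),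
    IsDom Ω ∧ IsDom Ω' ∧ IsQuasiconformal Ω Ω' f ∧ E ⊆ Ω ∧
      nagataDim E ≤ ((n - 1 : ℕ) : ℕ∞) ∧ nagataDim (f '' E) = (n : ℕ∞) := by
  intro n hn
  obtain ⟨m, rfl⟩ : ∃ m, n = m + 2 := ⟨n - 2, by omega⟩
  have hconn : IsConnected (Om m) :=
    ⟨nonempty_Eset.mono fun x hx => mem_Om_of_Eset hx, convex_Om.isPreconnected⟩
  refine ⟨Om m, G '' Om m, G, Eset m, ⟨isOpen_Om, hconn⟩, ⟨?_, ?_⟩, ⟨?_, ?_⟩, ?_, ?_, ?_⟩
  · exact (eG m).open_target
  · exact hconn.image _ locallyLipschitz_G.continuous.continuousOn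
  · exact ⟨eG m, rfl, rfl, fun x _ => rfl⟩
  · refine ⟨fun x => fderiv ℝ G x, isW1n_of_locallyLipschitz _ locallyLipschitz_G,
      2 * 3 ^ (m + 2), ?_, ?_⟩
    · have : (1 : ℝ) ≤ 3 ^ (m + 2) := one_le_pow₀ (by norm_num)
      linarith
    · unfold volOn opN detL
      filter_upwards [ae_restrict_mem isOpen_Om.measurableSet] with x hx
      rw [(hasStrictFDerivAt_G hx.1).hasFDerivAt.fderiv]
      have h1 : ‖DG x‖ ^ (m + 2) ≤ 3 ^ (m + 2) := by
        gcongr
        exact norm_DG_le hx.2.le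
      have h2 := det_pos hx
      have h3 : (0 : ℝ) < 3 ^ (m + 2) := by positivity
      nlinarith
  · exact fun x hx => mem_Om_of_Eset hx
  · have h1 : NagataLE (Eset m) (Fintype.card {i : Fin (m + 2) // i ≠ 1}) := by
      refine nagataLE_of_coords (fun x i => x i.1) (m + 2 : ℕ) (by positivity) ?_ ?_
      · intro x _ y _ i
        rw [dist_eq_norm]
        exact abs_coord_le (x - y) i.1
      · intro x hx y hy L hL h
        rw [dist_eq_norm]
        refine norm_le_of_coord _ L hL.le fun i => ?_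
        by_cases hi : i = 1
        · rw [hi]
          simp only [PiLp.sub_apply]
          rw [hx.2, hy.2]; simpa using hL.le
        · exact h ⟨i, hi⟩
    have h2 : Fintype.card {i : Fin (m + 2) // i ≠ 1} = m + 2 - 1 := by
      rw [Fintype.card_subtype_compl]
      simp
    rw [h2] at h1
    exact nagataDim_le h1
  · apply le_antisymm
    · have h1 : NagataLE (G '' Eset m) (Fintype.card (Fin (m + 2))) := by
        refine nagataLE_of_coords (fun x i => x i) (m + 2 : ℕ) (by positivity) ?_ ?_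
        · intro x _ y _ i
          rw [dist_eq_norm]
          exact abs_coord_le (x - y) i
        · intro x _ y _ L hL h
          rw [dist_eq_norm]
          exact norm_le_of_coord _ L hL.le h
      rw [Fintype.card_fin] at h1
      exact nagataDim_le h1
    · apply le_nagataDim
      intro d hd
      refine not_nagataLE_spiral (k := m) le_rfl ?_ hd
      intro t ht z _
      refine ⟨WithLp.toLp 2 (fun i => if i = 0 then t ^ 2 / 2 else if i = 1 then 0 else z i), ?_, ?_⟩
      · refine ⟨?_, ?_⟩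
        · simp only [if_true]; nlinarith
        · simp
      · ext i
        by_cases hi0 : i = 0
        · subst hi0
          simp [G, th_of_sq ht.le]
        · by_cases hi1 : i = 1
          · subst hi1
            simp [G, th_of_sq ht.le]
          · simp [G, hi0, hi1]

end Pool.Agent.Results.MP_a3803f_an.SpiralRoll
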